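import Pool.Agent.Helper93.TS.Stmts

set_option autoImplicit false

/-!
# Two-scale Katz-Tao: module SPV, functional dependencies
-/

namespace Pool.Agent.Helper93.TS

open Pool.Agent.Helper8.Kak

theorem st_SPV (h1 : ST_SPA) (h2 : ST_FC) : ST_SPV := by
  intro m N D r hr A hA y y' hy hy' h
  obtain ⟨-, hlk, -⟩ := h1 m N D
  have k := hlk y hy
  have k' := hlk y' hy'
  have hFC := h2 m N D.hN
  simp only [rules, List.mem_cons, List.not_mem_nil, or_false] at hr
  rcases hr with rfl | rfl | rfl | rfl | rfl | rfl | rfl | rfl | rfl | rfl | rfl | rfl | rfl <;>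
    simp only [List.mem_cons, List.not_mem_nil, or_false] at hA
  · rcases hA with rfl | rfl <;>
      simp only [Finset.mem_insert, Finset.mem_singleton, forall_eq_or_imp, forall_eq, Dat.V_l0,
        Dat.V_T0, Dat.V_l1] at h ⊢
    · rw [Dat.V_P0, h.1, h.2]
    · rw [Dat.V_P0, ← k.p0, ← k'.p0, h.1, h.2]
  · subst hA
    simp only [Finset.mem_insert, Finset.mem_singleton, forall_eq_or_imp, forall_eq, Dat.V_l1,
      Dat.V_R] at h ⊢
    rw [Dat.V_PR, h.1, h.2]
  · subst hA
    simp only [Finset.mem_insert, Finset.mem_singleton, forall_eq_or_imp, forall_eq, Dat.V_l0,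
      Dat.V_B] at h ⊢
    rw [Dat.V_Q, h.1, h.2]
  · rcases hA with rfl | rfl
    · simp only [Finset.mem_insert, Finset.mem_singleton, forall_eq_or_imp, forall_eq, Dat.V_l0,
        Dat.V_T0] at h ⊢
      rw [Dat.V_P0c, h.1, h.2]
    · simp only [Finset.mem_singleton, forall_eq, Dat.V_P0] at h
      rw [Dat.V_P0c]
      exact hFC _ _ h
  · subst hA
    simp only [Finset.mem_insert, Finset.mem_singleton, forall_eq_or_imp, forall_eq, Dat.V_l0,
      Dat.V_T1] at h ⊢
    rw [Dat.V_P1c, h.1, h.2]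
  · subst hA
    simp only [Finset.mem_insert, Finset.mem_singleton, forall_eq_or_imp, forall_eq, Dat.V_l0,
      Dat.V_S] at h ⊢
    rw [Dat.V_PSc, h.1, h.2]
  · rcases hA with rfl | rfl
    · simp only [Finset.mem_singleton, forall_eq, Dat.V_PR] at h
      rw [Dat.V_PRc]
      exact hFC _ _ h
    · simp only [Finset.mem_insert, Finset.mem_singleton, forall_eq_or_imp, forall_eq, Dat.V_l1,
        Dat.V_R] at h ⊢
      rw [Dat.V_PRc, h.1, h.2]
  · subst hA
    simp only [Finset.mem_singleton, forall_eq, Dat.V_l0] at h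
    rw [Dat.V_d0, h]
  · subst hA
    simp only [Finset.mem_singleton, forall_eq, Dat.V_l1] at h
    rw [Dat.V_d1, h]
  · subst hA
    simp only [Finset.mem_insert, Finset.mem_singleton, forall_eq_or_imp, forall_eq, Dat.V_T0,
      Dat.V_T1, Dat.V_S, Dat.V_R] at h ⊢
    obtain ⟨a1, a2, a3, a4⟩ := h
    rw [Dat.V_b]
    unfold Dat.vb
    rw [a1, a2, a3, a4]
  · subst hA
    simp only [Finset.mem_insert, Finset.mem_singleton, forall_eq_or_imp, forall_eq, Dat.V_l0,
      Dat.V_l1, Dat.V_T1, Dat.V_b] at h ⊢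
    obtain ⟨a1, a2, a3, a4⟩ := h
    rw [Dat.V_w]
    unfold Dat.vw
    rw [a1, a2, a3, a4]
  · subst hA
    simp only [Finset.mem_insert, Finset.mem_singleton, forall_eq_or_imp, forall_eq, Dat.V_T0,
      Dat.V_R, Dat.V_B] at h ⊢
    obtain ⟨a1, a2, a3⟩ := h
    rw [Dat.V_c]
    unfold Dat.vc
    rw [a1, a2, a3]
  · subst hA
    simp only [Finset.mem_insert, Finset.mem_singleton, forall_eq_or_imp, forall_eq, Dat.V_l0,
      Dat.V_l1, Dat.V_c] at h ⊢
    obtain ⟨a1, a2, a3⟩ := h
    rw [Dat.V_W]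
    unfold Dat.vW
    rw [a1, a2, a3]

end Pool.Agent.Helper93.TS
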